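import Pool.Agent.N340.PN.A1
import Pool.Agent.N931.PN.Stm5

/-! Project PN (helper931), piece PN/A1E: one arm at an end of the path. -/

set_option autoImplicit false

namespace Pool.Agent.N588.PN.A1E

open H974 H973 H12S H389NS H984N H984P H342P Finset
open Pool.Agent.N116.EW
open Pool.Agent.N690.EW (win_bot win_top sd_le le_sd WB)
open Pool.Agent.N340.PN.A1 (open_bound dual_bound)
open Pool.Agent.N931.PN (OAr DAr pts FarP)

/-- **One arm at an end of the path.** -/
theorem main : Pool.Agent.N931.PN.S_A1E := by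
  intro κ hκ
  obtain ⟨c₀, C₀, -, hC₀, hWIN⟩ := Pool.Agent.Y989.SD.m_WIN 1 1 one_pos
  have hW : WB C₀ := fun T v L hw r R h1 h2 h3 => (hWIN T v L hw r R h1 h2 h3).1
  refine ⟨2 * C₀ + 2, κ / 1000, by positivity, by positivity, ?_⟩
  intro n D hn hS hF i hi d R hd hdR hRq
  have hd' : (1 : ℝ) ≤ d := by exact_mod_cast hd
  have hdR' : (d : ℝ) ≤ R := by exact_mod_cast hdR
  have hR0 : (0 : ℝ) < R := by linarith
  have hpow0 : (0 : ℝ) ≤ ((d : ℝ) / R) ^ (1 / 3 : ℝ) := by positivity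
  show Pr (fun _ => (1 / 2 : ℝ)) D.edges (OAr (pts D i) d R) ≤
      (2 * C₀ + 2) * ((d : ℝ) / R) ^ (1 / 3 : ℝ) ∧
    Pr (fun _ => (1 / 2 : ℝ)) D.edges (DAr D (pts D i) d R) ≤
      (2 * C₀ + 2) * ((d : ℝ) / R) ^ (1 / 3 : ℝ)
  by_cases h8 : R ≤ 8 * d
  · -- trivial case
    have h2 : (1 / 8 : ℝ) ≤ (d : ℝ) / R := by
      rw [le_div_iff₀ hR0]
      have : (R : ℝ) ≤ 8 * d := by exact_mod_cast h8
      linarith
    have h3 : (1 / 8 : ℝ) ^ (1 / 3 : ℝ) ≤ ((d : ℝ) / R) ^ (1 / 3 : ℝ) :=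
      Real.rpow_le_rpow (by norm_num) h2 (by norm_num)
    have h4 : (1 / 8 : ℝ) ^ (1 / 3 : ℝ) = 1 / 2 := by
      rw [show (1 / 8 : ℝ) = (1 / 2) ^ (3 : ℝ) by norm_num, ← Real.rpow_mul (by norm_num)]
      norm_num
    rw [h4] at h3
    constructor
    · have h1 : Pr (fun _ => (1 / 2 : ℝ)) D.edges (OAr (pts D i) d R) ≤ 1 :=
        Pr_le_one okhalf _ _
      nlinarith
    · have h1 : Pr (fun _ => (1 / 2 : ℝ)) D.edges (DAr D (pts D i) d R) ≤ 1 :=
        Pr_le_one okhalf _ _
      nlinarith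
  · push Not at h8
    have hκn : 1000 * (R : ℝ) ≤ κ * n := by
      have h1 : κ / 1000 * n = κ * n / 1000 := by ring
      rw [h1] at hRq
      linarith
    obtain ⟨hok, hs1, hs2, hs3, hs4, hs5⟩ := hS
    obtain ⟨hl, hr, hh, hlt, htr⟩ := hok
    have hRl : 1000 * (R : ℤ) ≤ -D.l := by
      have : 1000 * (R : ℝ) ≤ -D.l := hκn.trans hs1
      exact_mod_cast this
    have hRr : 1000 * (R : ℤ) ≤ D.r := by
      have : 1000 * (R : ℝ) ≤ D.r := hκn.trans hs2
      exact_mod_cast this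
    have hRh : 1000 * (R : ℤ) ≤ D.h := by
      have : 1000 * (R : ℝ) ≤ D.h := hκn.trans hs3
      exact_mod_cast this
    have hd0 : (1 : ℤ) ≤ d := by exact_mod_cast hd
    have h80 : 8 * (d : ℤ) < R := by exact_mod_cast h8
    have hfin : Pr (fun _ => (1 / 2 : ℝ)) D.edges (OAr (pts D i) d R) ≤
        2 * C₀ * ((d : ℝ) / R) ^ (1 / 3 : ℝ) ∧
        Pr (fun _ => (1 / 2 : ℝ)) D.edges (DAr D (pts D i) d R) ≤
        2 * C₀ * ((d : ℝ) / R) ^ (1 / 3 : ℝ) := by
      have h45 : (i : ℕ) = 4 ∨ (i : ℕ) = 5 := by omega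
      rcases h45 with h | h
      · -- the top end
        obtain rfl : i = 4 := Fin.ext h
        have f1 : 1000 * (R : ℤ) ≤ sd (D.t, D.h) (D.l, D.h) := by
          have := hκn.trans (hF 4 2 (by decide))
          exact_mod_cast this
        have f2 : 1000 * (R : ℤ) ≤ sd (D.t, D.h) (D.r, D.h) := by
          have := hκn.trans (hF 4 3 (by decide))
          exact_mod_cast this
        rw [le_sd] at f1 f2
        simp only at f1 f2
        have a1 : 1000 * (R : ℤ) ≤ D.t - D.l := by omega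
        have a2 : 1000 * (R : ℤ) ≤ D.r - D.t := by omega
        clear f1 f2
        show Pr (fun _ => (1 / 2 : ℝ)) D.edges (OAr (D.t, D.h) d R) ≤
            2 * C₀ * ((d : ℝ) / R) ^ (1 / 3 : ℝ) ∧
          Pr (fun _ => (1 / 2 : ℝ)) D.edges (DAr D (D.t, D.h) d R) ≤
            2 * C₀ * ((d : ℝ) / R) ^ (1 / 3 : ℝ)
        constructor
        · apply open_bound hC₀.le hW hd h8 (v := (D.t, D.h))
          · apply win_top <;> (try simp only) <;> omega
          · rw [sd_le]; simp only; omega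
        · apply dual_bound hC₀.le hW hd h8 (v := (D.t, D.h))
          · apply win_top <;> (try simp only) <;> omega
          · rw [sd_le]; simp only; omega
      · -- the bottom end
        obtain rfl : i = 5 := Fin.ext h
        show Pr (fun _ => (1 / 2 : ℝ)) D.edges (OAr (0, 0) d R) ≤
            2 * C₀ * ((d : ℝ) / R) ^ (1 / 3 : ℝ) ∧
          Pr (fun _ => (1 / 2 : ℝ)) D.edges (DAr D (0, 0) d R) ≤
            2 * C₀ * ((d : ℝ) / R) ^ (1 / 3 : ℝ)
        constructor
        · apply open_bound hC₀.le hW hd h8 (v := (0, 0))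
          · apply win_bot <;> (try simp only) <;> omega
          · rw [sd_le]; simp only; omega
        · apply dual_bound hC₀.le hW hd h8 (v := (0, -1))
          · apply win_bot <;> (try simp only) <;> omega
          · rw [sd_le]; simp only; omega
    constructor
    · refine hfin.1.trans ?_
      nlinarith
    · refine hfin.2.trans ?_
      nlinarith

end Pool.Agent.N588.PN.A1E
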